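import Pool.Agent.P.MP_7cb106_nt.BI.All

/-! Growth of the invariants of congruence subgroups in an infinite-dimensional admissible smooth
representation of `GL_n` over a `p`-adic order, in characteristic `p`. -/

set_option autoImplicit false

namespace Pool.Agent.P.MP_7cb106_nt.BernsteinInequalityKept

theorem result (p : ℕ) [Fact p.Prime] (O : Type) [CommRing O] [IsDomain O] [Algebra ℤ_[p] O]
    [Module.Finite ℤ_[p] O] [Module.Free ℤ_[p] O] (n : ℕ) (Γ : ℕ → Subgroup (GL (Fin n) O))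
    (hΓ : ∀ l g, g ∈ Γ l ↔ ∃ X : Matrix (Fin n) (Fin n) O,
      (g : Matrix (Fin n) (Fin n) O) = 1 + (p : O) ^ l • X)
    (U : Subgroup (GL (Fin n) O)) (e : ℕ) (he : 3 ≤ p ^ e) (hU : Γ e ≤ U)
    (F V : Type) [Field F] [CharP F p] [AddCommGroup V] [Module F V] (π : Representation F U V)
    (Fix : ℕ → Submodule F V)
    (hFix : ∀ l v, v ∈ Fix l ↔ ∀ g : U, (g : GL (Fin n) O) ∈ Γ l → π g v = v)
    (smooth : ∀ v, ∃ l, v ∈ Fix l)
    (central : ∀ (z : U) (c : O), ((z : GL (Fin n) O) : Matrix (Fin n) (Fin n) O) =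
      c • (1 : Matrix (Fin n) (Fin n) O) → ∃ a : F, ∀ v, π z v = a • v)
    (adm : FiniteDimensional F (Fix e)) (inf : ¬ FiniteDimensional F V) (l : ℕ) :
    (((p ^ l - 1 + Module.finrank ℤ_[p] O * (n - 1)).choose
      (Module.finrank ℤ_[p] O * (n - 1)) : ℕ) : Cardinal) ≤ Module.rank F (Fix (e + l)) :=
  Pool.Agent.P.MP_7cb106_nt.BI.fin_of Pool.Agent.P.MP_7cb106_nt.BI.all_CORE
    Pool.Agent.P.MP_7cb106_nt.BI.all_WUA Pool.Agent.P.MP_7cb106_nt.BI.all_A1
    p O n Γ hΓ U e he hU F V π Fix hFix smooth central adm inf l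

end Pool.Agent.P.MP_7cb106_nt.BernsteinInequalityKept
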