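import Pool.Agent.P.MP_7cb106_nt.B.B7

set_option autoImplicit false

namespace Pool.Agent.P.MP_7cb106_nt.ChoiceFreeKept

open Pool.Agent.P.MP_7cb106_nt

theorem result (p : ℕ) [Fact p.Prime] (K : Type) [NontriviallyNormedField K]
    [IsUltrametricDist K] [NormedAlgebra ℚ_[p] K] [FiniteDimensional ℚ_[p] K] (n : ℕ)
    (O C F : Type) [CommRing O] [Field C] [CharZero C] [IsAlgClosed C] [Algebra O C]
    (hO : Function.Injective (algebraMap O C)) [Field F] [Finite F] [CharP F p] [Algebra O F]
    (S S' L : Type) [AddCommGroup S] [Module O S] [Module.Free O S] [Module.Finite O S]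
    [AddCommGroup S'] [Module O S'] [Module.Free O S'] [Module.Finite O S']
    [AddCommGroup L] [Module O L] [Module.Free O L] [Module.Finite O L]
    (σ : Representation O (Kint K n) S) (σ' : Representation O (Kint K n) S')
    (lam : Representation O (Kint K n) L)
    (hσ : Smooth σ) (hσ' : Smooth σ') (hlam : Smooth (extend F lam)) (m m' : ℕ)
    (h : ∀ (V : Type) [AddCommGroup V] [Module C V] (π : Representation C (GL (Fin n) K) V),
      π.IsIrreducible → Smooth π → Admissible π →
        m' * Module.finrank C ((extend C σ).IntertwiningMap (π.comp (Kint K n).subtype)) =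
          m * Module.finrank C ((extend C σ').IntertwiningMap (π.comp (Kint K n).subtype)))
    (W : Type) [AddCommGroup W] [Module F W] (a : Representation F (Kint K n) W)
    (N N' : ℕ) (hN : HasMult (extend F (σ.tprod lam)) a N)
    (hN' : HasMult (extend F (σ'.tprod lam)) a N') :
    m' * N = m * N' :=
  T.all_JH F _ _ _ W _ _ a m m'
    (T.all_RED p K n O C F S S' L σ σ' lam m m' hO hσ hσ' hlam h) N N' hN hN'

end Pool.Agent.P.MP_7cb106_nt.ChoiceFreeKept
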