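import Pool.Agent.P.MP_7cb106_nt.Cv.Main

set_option autoImplicit false

namespace Pool.Agent.P.MP_7cb106_nt.CoverUnicityKept

open Pool.Agent.P.MP_7cb106_nt.Ty Pool.Agent.P.MP_7cb106_nt.Cv

theorem result (R : Type) [CommRing R] [Finite R] (p : ℕ) (hp : p.Prime)
    (hR : IsNilpotent (p : R)) (ζ : Rˣ) (hζ : IsUnit (ζ.val ^ 2 - 1))
    (n r : ℕ) (b : Fin n → Fin r) (hb : Function.Surjective b)
    (J H : Subgroup (GL (Fin n) R)) (hH : H ≤ J)
    (hN : J ≤ Subgroup.normalizer (H : Set (GL (Fin n) R))) (hP : IsPGroup p H)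
    (hJ : ∀ g ∈ J, ∃ m ∈ J, m ∈ Levi R b ∧ m⁻¹ * g ∈ H) (hz : ∀ j, zb b ζ j ∈ J)
    (U : Type) [AddCommGroup U] [Module ℂ U] [FiniteDimensional ℂ U]
    (lam : Representation ℂ J U) (hc : Cover b H lam)
    (V : Type) [AddCommGroup V] [Module ℂ V] [FiniteDimensional ℂ V]
    (σ : Representation ℂ (GL (Fin n) R) V) (e : ℂ)
    (he : ∀ v, Fixed b σ v → ∑ j, σ (zb b ζ j) v = e • v)
    (w : Equiv.Perm (Fin n)) (hw : Blk b w) :
    Module.finrank ℂ (HomF ⊤ (fun _ _ => False) lam σ) =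
      Module.finrank ℂ (HomF (Levi R b) (fun s t => b (w s) < b (w t)) lam σ) :=
  have := Fintype.ofFinite (GL (Fin n) R)
  Hyp.main' ⟨hp, hR, hH, hN, hP, hc⟩ hz he hb hζ hJ hw

end Pool.Agent.P.MP_7cb106_nt.CoverUnicityKept
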