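import Mathlib

/-! Definitions used by the statement: the maximal compact subgroup, smooth and admissible
representations, extension of scalars, Jordan-Hoelder counts. -/

set_option autoImplicit false

namespace Pool.Agent.P.MP_7cb106_nt

open scoped TensorProduct

/-- `GL_n` of the ring of integers of `K`, as a subgroup of `GL_n(K)`: the matrix and its inverse
have entries of norm at most one -/
def Kint (K : Type) [NormedField K] [IsUltrametricDist K] (n : ℕ) :
    Subgroup (GL (Fin n) K) where
  carrier := {g | (∀ i j, ‖(g : Matrix (Fin n) (Fin n) K) i j‖ ≤ 1) ∧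
    ∀ i j, ‖((g⁻¹ : GL (Fin n) K) : Matrix (Fin n) (Fin n) K) i j‖ ≤ 1}
  mul_mem' := by
    have key : ∀ A B : Matrix (Fin n) (Fin n) K, (∀ i j, ‖A i j‖ ≤ 1) → (∀ i j, ‖B i j‖ ≤ 1) →
        ∀ i j, ‖(A * B) i j‖ ≤ 1 := by
      intro A B hA hB i j
      rw [Matrix.mul_apply]
      refine IsUltrametricDist.norm_sum_le_of_forall_le_of_nonneg zero_le_one fun l _ => ?_
      rw [norm_mul]
      exact mul_le_one₀ (hA i l) (norm_nonneg _) (hB l j)
    intro g h hg hh
    refine ⟨key _ _ hg.1 hh.1, ?_⟩
    rw [mul_inv_rev]
    exact key _ _ hh.2 hg.2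
  one_mem' := by
    have key : ∀ i j : Fin n, ‖(1 : Matrix (Fin n) (Fin n) K) i j‖ ≤ 1 := by
      intro i j
      rw [Matrix.one_apply]
      split_ifs <;> simp
    refine ⟨key, ?_⟩
    rw [inv_one]
    exact key
  inv_mem' := by
    intro g hg
    refine ⟨hg.2, ?_⟩
    rw [inv_inv]
    exact hg.1

/-- a representation is smooth when every vector has an open stabiliser -/
def Smooth {A H V : Type} [CommRing A] [Group H] [TopologicalSpace H] [AddCommGroup V]
    [Module A V] (ρ : Representation A H V) : Prop :=
  ∀ v : V, IsOpen {g : H | ρ g v = v}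

/-- the vectors fixed by any open subgroup form a finite-dimensional space -/
def Admissible {C H V : Type} [Field C] [Group H] [TopologicalSpace H] [AddCommGroup V]
    [Module C V] (ρ : Representation C H V) : Prop :=
  ∀ U : Subgroup H, IsOpen (U : Set H) →
    FiniteDimensional C (Representation.invariants (ρ.comp U.subtype))

/-- extension of scalars of a representation from `O` to the `O`-algebra `A` -/
noncomputable def extend {O H V : Type} [CommRing O] [Group H] [AddCommGroup V] [Module O V]
    (A : Type) [CommRing A] [Algebra O A] (ρ : Representation O H V) :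
    Representation A H (A ⊗[O] V) where
  toFun g := (ρ g).baseChange A
  map_one' := by rw [map_one, LinearMap.baseChange_one]
  map_mul' g h := by rw [map_mul, LinearMap.baseChange_mul]

/-- the number of factors of the composition series `s` that are isomorphic to `W` -/
noncomputable def factorCount {R M : Type} [Ring R] [AddCommGroup M] [Module R M]
    (s : CompositionSeries (Submodule R M)) (W : Type) [AddCommGroup W] [Module R W] : ℕ :=
  Nat.card {i : Fin s.length //
    Nonempty ((↥(s i.succ) ⧸ (s i.castSucc).submoduleOf (s i.succ)) ≃ₗ[R] W)}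

/-- `N` is the Jordan-Hoelder multiplicity of `a` in `ρ`: a composition series of `ρ` from zero to
the whole space has exactly `N` factors isomorphic to `a` -/
def HasMult {F H V W : Type} [Field F] [Group H] [AddCommGroup V] [Module F V] [AddCommGroup W]
    [Module F W] (ρ : Representation F H V) (a : Representation F H W) (N : ℕ) : Prop :=
  ∃ s : CompositionSeries (Submodule (MonoidAlgebra F H) ρ.asModule),
    s.head = ⊥ ∧ s.last = ⊤ ∧ factorCount s a.asModule = N

end Pool.Agent.P.MP_7cb106_nt
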