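import Pool.Agent.P.MP_7cb106_nt.Q2.BaseAll

/-! Bi-invariant spaces of locally constant functions on an almost simple uniform pro-`p` group. -/

set_option autoImplicit false

namespace Pool.Agent.P.MP_7cb106_nt.IwasawaIdealsKept

/-- `G` is a uniform pro-`p` group (profinite, pro-`p`, topologically finitely generated, powerful,
torsion-free) with finite centre whose non-trivial closed normal subgroups have finite index, `k`
a field of characteristic `p`. A space of locally constant functions `G → k` stable under left and
right translations is finite-dimensional or everything. -/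
theorem result (p : ℕ) [Fact p.Prime] (k : Type) [Field k] [CharP k p]
    (G : Type) [Group G] [TopologicalSpace G] [IsTopologicalGroup G] [CompactSpace G] [T2Space G]
    [TotallyDisconnectedSpace G]
    (hpro : ∀ U : OpenNormalSubgroup G, IsPGroup p (G ⧸ U.toSubgroup))
    (hfg : ∃ S : Finset G, (Subgroup.closure (S : Set G)).topologicalClosure = ⊤)
    (hpow : commutator G ≤ (Subgroup.closure
      (Set.range fun x : G => x ^ (if p = 2 then 4 else p))).topologicalClosure)
    (htf : ∀ x : G, IsOfFinOrder x → x = 1)
    (hcen : Finite (Subgroup.center G))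
    (hsim : ∀ N : Subgroup G, N.Normal → IsClosed (N : Set G) → N = ⊥ ∨ N.FiniteIndex)
    (W : Submodule k (LocallyConstant G k))
    (hW : ∀ f ∈ W, ∀ a b : G, ∃ f' ∈ W, ∀ x, f' x = f (a * x * b)) :
    FiniteDimensional k W ∨ W = ⊤ := by
  refine Pool.Agent.P.MP_7cb106_nt.Q2.all_FINAL p k G hpro hfg hpow htf hcen hsim W
    fun f hf a b => ?_
  obtain ⟨f', hf', h⟩ := hW f hf a b
  have e : f' = f.comap ⟨fun x => a * x * b, by fun_prop⟩ := LocallyConstant.ext h
  exact e ▸ hf'

end Pool.Agent.P.MP_7cb106_nt.IwasawaIdealsKept
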