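import Pool.Agent.P.MP_7cb106_nt.QJ.AllX

/-! Bi-invariant spaces of locally constant functions with a central character, in characteristic
`p`, on an open subgroup of `GL_n` over a `p`-adic order are finite-dimensional or everything. -/

set_option autoImplicit false

namespace Pool.Agent.P.MP_7cb106_nt.ModPCaptureKept

theorem result (p : ℕ) [Fact p.Prime] (O : Type) [CommRing O] [IsDomain O] [Algebra ℤ_[p] O]
    [Module.Finite ℤ_[p] O] [Module.Free ℤ_[p] O] [TopologicalSpace O] [IsModuleTopology ℤ_[p] O]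
    (n : ℕ) (U : Subgroup (GL (Fin n) O)) (hU : IsOpen (U : Set (GL (Fin n) O)))
    (k : Type) [Field k] [CharP k p] (ψ : Oˣ → k) (C W : Submodule k (LocallyConstant U k))
    (hC : ∀ f, f ∈ C ↔ ∀ (c : Oˣ) (z g : U),
      ((z : GL (Fin n) O) : Matrix (Fin n) (Fin n) O) = (c : O) • (1 : Matrix (Fin n) (Fin n) O) →
      f (z * g) = ψ c * f g)
    (hWC : W ≤ C) (hW : ∀ w ∈ W, ∀ a b : U, ∃ w' ∈ W, ∀ g, w' g = w (a * g * b)) :
    FiniteDimensional k W ∨ W = C :=
  (Pool.Agent.P.MP_7cb106_nt.QJ.a_FINALX p O n U hU k ψ W hW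
    (fun w hw => (hC w).1 (hWC hw))).imp id
    fun h => le_antisymm hWC fun f hf => h f ((hC f).1 hf)

end Pool.Agent.P.MP_7cb106_nt.ModPCaptureKept
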