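import Pool.Agent.P.MP_7cb106_nt.PB.All
import Pool.Agent.P.MP_7cb106_nt.PB.Pub

set_option autoImplicit false

namespace Pool.Agent.P.MP_7cb106_nt.PrincipalTypesKept

open Pool.Agent.P.MP_7cb106_nt Pool.Agent.P.MP_7cb106_nt.PT

theorem result (K : Type) [NontriviallyNormedField K] [IsUltrametricDist K]
    [LocallyCompactSpace K] (n : ℕ) (χ : Fin n → Kˣ →* ℂˣ)
    (hχ : ∀ i, IsOpen ((χ i).ker : Set Kˣ))
    (hreg : ∀ i j, (∀ x : Kˣ, ‖(x : K)‖ = 1 → χ i x = χ j x) → i = j) :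
    ∃ (d : Code K n → ℕ) (σ : ∀ C, Representation ℂ (Kint K n) (Fin (d C) → ℂ)),
      (∀ C, (σ C).IsIrreducible ∧ Smooth (σ C) ∧ Detects χ (σ C)) ∧
      (∀ C C', Nonempty ((σ C).Equiv (σ C')) → C = C') ∧
      ∀ (T : Type) [AddCommGroup T] [Module ℂ T] (τ : Representation ℂ (Kint K n) T),
        τ.IsIrreducible → Smooth τ → Typical χ τ → ∃ C, Nonempty (τ.Equiv (σ C)) :=
  a_MAIN K n χ hχ hreg

end Pool.Agent.P.MP_7cb106_nt.PrincipalTypesKept
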