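import Pool.Agent.P.MP_7cb106_nt.Ty.Red

set_option autoImplicit false

namespace Pool.Agent.P.MP_7cb106_nt.TypesUniqueKept

open Pool.Agent.P.MP_7cb106_nt.Ty

theorem result (O : Type) [CommRing O] [IsLocalRing O] (n r : ℕ) (b : Fin n → Fin r)
    (hb : Function.Surjective b) (U : Type) [AddCommGroup U] [Module ℂ U] [FiniteDimensional ℂ U]
    (lam : Representation ℂ (Levi O b) U) (hi : lam.IsIrreducible)
    (hl : Level (Levi O b).subtype lam) (hc : Cusp lam)
    (hq : 2 * (n * (n - 1)) * ((Stab lam).ncard + 1) + 1 < Nat.card (IsLocalRing.ResidueField O))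
    (J : Type) [Fintype J] (V : J → Type) [∀ j, AddCommGroup (V j)] [∀ j, Module ℂ (V j)]
    [∀ j, FiniteDimensional ℂ (V j)] (σ : ∀ j, Representation ℂ (GL (Fin n) O) (V j))
    (hσ : ∀ j, (σ j).IsIrreducible ∧ Level (MonoidHom.id _) (σ j) ∧ Pure lam (σ j))
    (hne : ∀ i j, Nonempty ((σ i).Equiv (σ j)) → i = j) :
    ∃ m : J → ℕ+, (∀ j w, Blk b w → Module.finrank ℂ (HomP lam (σ j) w) = m j) ∧
      ∑ j, (m j : ℕ) ^ 2 ≤ (Stab lam).ncard :=
  general_case hb lam hi hl hc (by rwa [Fintype.card_fin]) σ hσ hne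

end Pool.Agent.P.MP_7cb106_nt.TypesUniqueKept
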